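import Pool.Agent.H334R2.CM.Defs
set_option autoImplicit false
open scoped Matrix MatrixGroups
universe u
namespace CM
namespace CLIF2

/-! ### Part 1: the corner generated by one element -/
section abs
variable {k B : Type*} [Field k] [Ring B] [Algebra k B]

open Polynomial in
lemma commute_aeval {F x : B} (h : Commute F x) (p : Polynomial k) : Commute F (aeval x p) := by
  induction p using Polynomial.induction_on' with
  | add p q hp hq => rw [map_add]; exact hp.add_right hq
  | monomial n a =>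
    rw [aeval_monomial]
    exact Commute.mul_right (Algebra.commutes a F).symm (h.pow_right n)

/-- `F p(x)` -/
noncomputable def ps (F x : B) (p : Polynomial k) : B := F * Polynomial.aeval x p

variable {F x : B}

lemma ps_one : ps F x (1 : Polynomial k) = F := by simp [ps]

lemma ps_C (c : k) : ps F x (Polynomial.C c) = c • F := by
  simp [ps, Algebra.algebraMap_eq_smul_one]

lemma ps_zero : ps F x (0 : Polynomial k) = 0 := by simp [ps]

lemma ps_add (p q : Polynomial k) : ps F x (p + q) = ps F x p + ps F x q := by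
  simp [ps, mul_add]

lemma ps_sub (p q : Polynomial k) : ps F x (p - q) = ps F x p - ps F x q := by
  simp [ps, mul_sub]

lemma ps_smul (c : k) (p : Polynomial k) : ps F x (c • p) = c • ps F x p := by
  simp [ps]

lemma ps_mul (hF : F * F = F) (h1 : F * x = x) (h2 : x * F = x) (p q : Polynomial k) :
    ps F x (p * q) = ps F x p * ps F x q := by
  have hc : Commute F x := by rw [Commute, SemiconjBy, h1, h2]
  have := (commute_aeval (k := k) hc p).eq
  unfold ps
  rw [map_mul, mul_assoc F _ (F * _), ← mul_assoc _ F, ← this, mul_assoc F, ← mul_assoc F F, hF]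

lemma ps_pow (hF : F * F = F) (h1 : F * x = x) (h2 : x * F = x) (p : Polynomial k) (n : ℕ)
    (hn : n ≠ 0) : ps F x (p ^ n) = ps F x p ^ n := by
  induction n with
  | zero => exact absurd rfl hn
  | succ n ih =>
    rcases Nat.eq_zero_or_pos n with h | h
    · subst h; simp
    · rw [pow_succ, ps_mul hF h1 h2, ih h.ne', pow_succ]

lemma ps_root (hF : F * F = F) (h1 : F * x = x) (h2 : x * F = x) (p : Polynomial k) (a : k) :
    ∃ q : Polynomial k, ps F x p - (p.eval a) • F =
      ps F x (Polynomial.X - Polynomial.C a) * ps F x q := by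
  have hr : (p - Polynomial.C (p.eval a)).IsRoot a := by simp [Polynomial.IsRoot]
  obtain ⟨q, hq⟩ := Polynomial.dvd_iff_isRoot.2 hr
  refine ⟨q, ?_⟩
  rw [← ps_mul hF h1 h2, ← hq, ps_sub, ps_C]

lemma span_poly {n : ℕ} (b : B)
    (hb : b ∈ Submodule.span k (Set.range fun i : Fin n => F * x ^ (i : ℕ))) :
    ∃ p : Polynomial k, b = ps F x p := by
  induction hb using Submodule.span_induction with
  | mem y hy =>
    obtain ⟨i, rfl⟩ := hy
    exact ⟨Polynomial.X ^ (i : ℕ), by simp [ps]⟩
  | zero => exact ⟨0, ps_zero.symm⟩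
  | add y z _ _ hy hz =>
    obtain ⟨p, rfl⟩ := hy
    obtain ⟨q, rfl⟩ := hz
    exact ⟨p + q, (ps_add p q).symm⟩
  | smul a y _ hy =>
    obtain ⟨p, rfl⟩ := hy
    exact ⟨a • p, (ps_smul a p).symm⟩

lemma abs4 [IsAlgClosed k] [CharP k 2] (hF : F * F = F) (hF0 : F ≠ 0) (h1 : F * x = x)
    (h2 : x * F = x) (c : k) (hx : F * x ^ 4 = c • F)
    (hsp : ∀ b ∈ cor k F F, ∃ p : Polynomial k, b = ps F x p) : IsLoc k F := by
  refine ⟨hF0, hF, fun b hb => ?_⟩
  obtain ⟨p, rfl⟩ := hsp b hb
  obtain ⟨g, hg⟩ := IsAlgClosed.exists_pow_nat_eq c (n := 4) (by norm_num)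
  obtain ⟨q, hq⟩ := ps_root (k := k) hF h1 h2 p g
  refine ⟨p.eval g, 4, ?_⟩
  rw [hq, ← ps_mul hF h1 h2, ← ps_pow hF h1 h2 _ 4 (by norm_num), mul_pow, ps_mul hF h1 h2]
  have h4 : (Polynomial.X - Polynomial.C g : Polynomial k) ^ 4 = Polynomial.X ^ 4 - Polynomial.C c := by
    have h := sub_pow_char_pow (R := Polynomial k) (p := 2) (n := 2) Polynomial.X (Polynomial.C g)
    norm_num at h
    rw [h, ← hg, Polynomial.C_pow]
  have h5 : ps F x (Polynomial.X ^ 4 - Polynomial.C c : Polynomial k) = 0 := by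
    rw [ps_sub, ps_C]
    simp [ps, hx]
  rw [h4, h5, zero_mul]

lemma abs3 [IsAlgClosed k] [CharP k 2] (hF : F * F = F) (h1 : F * x = x)
    (h2 : x * F = x) (c : k) (hc : c ≠ 0) (hx : F * x ^ 3 = c • F)
    (hsp : ∀ b ∈ cor k F F, ∃ p : Polynomial k, b = ps F x p)
    (hli : LinearIndependent k (fun i : Fin 3 => F * x ^ (i : ℕ))) :
    ∃ e : Fin 3 → B, (∀ i, IsLoc k (e i)) ∧
      (∀ i j, Module.finrank k (cor k (e i) (e j)) = if i = j then 1 else 0) ∧
      (∀ i, e i ∈ cor k F F) ∧ ∑ i, e i = F := by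
  have h20 : (2 : k) = 0 := CharP.cast_eq_zero k 2
  obtain ⟨g, hg⟩ := IsAlgClosed.exists_pow_nat_eq c (n := 3) (by norm_num)
  have hg0 : g ≠ 0 := by rintro rfl; exact hc (by rw [← hg]; ring)
  -- a primitive cube root of unity
  obtain ⟨w, hw⟩ : ∃ w : k, w ^ 2 + w + 1 = 0 := by
    have := IsAlgClosed.exists_root (Polynomial.C 1 * Polynomial.X ^ 2 +
      Polynomial.C 1 * Polynomial.X + Polynomial.C 1 : Polynomial k) (by
      rw [Polynomial.degree_quadratic one_ne_zero]
      norm_num)
    obtain ⟨w, hw⟩ := this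
    exact ⟨w, by simpa [Polynomial.IsRoot] using hw⟩
  have hw3 : w ^ 3 = 1 := by linear_combination (w - 1) * hw
  set a : Fin 3 → k := fun j => w ^ (j : ℕ) * g⁻¹ with ha
  have hac : ∀ j, c * a j ^ 3 = 1 := by
    intro j
    rw [ha]
    simp only
    rw [mul_pow, ← pow_mul, mul_comm (j : ℕ) 3, pow_mul, hw3, one_pow, ← hg, one_mul, ← mul_pow,
      mul_inv_cancel₀ hg0, one_pow]
  have haa : ∀ i j, i ≠ j → a i ^ 2 + a i * a j + a j ^ 2 = 0 := by
    intro i j hij
    have : ∀ i j : Fin 3, i ≠ j → (w ^ (i : ℕ)) ^ 2 + w ^ (i : ℕ) * w ^ (j : ℕ) + (w ^ (j : ℕ)) ^ 2 = 0 := by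
      intro i j hij
      fin_cases i <;> fin_cases j <;> first | exact absurd rfl hij | skip
      all_goals simp
      · linear_combination hw
      · linear_combination hw + w * hw3
      · linear_combination hw
      · linear_combination hw + w * hw3 + hw3
      · linear_combination hw + w * hw3
      · linear_combination hw + w * hw3 + hw3
    rw [ha]
    simp only
    linear_combination g⁻¹ ^ 2 * this i j hij
  set E : Fin 3 → Polynomial k := fun j => 1 + Polynomial.C (a j) * Polynomial.X +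
    Polynomial.C (a j) ^ 2 * Polynomial.X ^ 2 with hE
  have hker : ∀ q : Polynomial k, ps F x ((Polynomial.X ^ 3 - Polynomial.C c) * q) = 0 := by
    intro q
    rw [ps_mul hF h1 h2, ps_sub, ps_C]
    simp [ps, hx]
  have h2P : (2 : Polynomial k) = 0 := by
    rw [show (2 : Polynomial k) = Polynomial.C 2 from (Polynomial.C_ofNat (R := k) 2).symm, h20,
      Polynomial.C_0]
  have hCc : ∀ j, Polynomial.C c * Polynomial.C (a j) ^ 3 = (1 : Polynomial k) := by
    intro j
    rw [← Polynomial.C_pow, ← Polynomial.C_mul, hac, Polynomial.C_1]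
  have hCa : ∀ i j, i ≠ j → Polynomial.C (a i) ^ 2 + Polynomial.C (a i) * Polynomial.C (a j) +
      Polynomial.C (a j) ^ 2 = (0 : Polynomial k) := by
    intro i j hij
    rw [← Polynomial.C_pow, ← Polynomial.C_pow, ← Polynomial.C_mul, ← Polynomial.C_add,
      ← Polynomial.C_add, haa i j hij, Polynomial.C_0]
  have hEE : ∀ j, ps F x (E j) * ps F x (E j) = ps F x (E j) := by
    intro j
    rw [← ps_mul hF h1 h2, ← sub_eq_zero, ← ps_sub]
    rw [← hker (-(Polynomial.C (a j) ^ 4 * Polynomial.X))]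
    congr 1
    simp only [hE]
    linear_combination (Polynomial.C (a j) ^ 2 * Polynomial.X ^ 2 +
      Polynomial.C (a j) ^ 3 * Polynomial.X ^ 3 + Polynomial.C (a j) ^ 4 * Polynomial.X ^ 4) * h2P -
      Polynomial.C (a j) * Polynomial.X * hCc j
  have hEne : ∀ i j, i ≠ j → ps F x (E i) * ps F x (E j) = 0 := by
    intro i j hij
    rw [← ps_mul hF h1 h2, ← hker (Polynomial.C (a i) * Polynomial.C (a j) *
      (Polynomial.C (a i) + Polynomial.C (a j)) +
      Polynomial.C (a i) ^ 2 * Polynomial.C (a j) ^ 2 * Polynomial.X)]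
    congr 1
    simp only [hE]
    linear_combination (Polynomial.X ^ 2 + Polynomial.C c * Polynomial.C (a j) +
      Polynomial.X * (Polynomial.C c * Polynomial.C (a j) ^ 2)) * hCa i j hij +
      (-1 - Polynomial.X * (Polynomial.C (a i) + Polynomial.C (a j))) * hCc j
  have hE' : ∀ j, ps F x (E j) = (1 : k) • (F * x ^ 0) + a j • (F * x ^ 1) +
      (a j) ^ 2 • (F * x ^ 2) := by
    intro j
    have : E j = 1 + a j • Polynomial.X + (a j) ^ 2 • Polynomial.X ^ 2 := by
      rw [Polynomial.smul_eq_C_mul, Polynomial.smul_eq_C_mul, Polynomial.C_pow]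
    rw [this, ps_add, ps_add, ps_smul, ps_smul]
    simp [ps]
  have hE0 : ∀ j, ps F x (E j) ≠ 0 := by
    intro j h0
    have := Fintype.linearIndependent_iff.1 hli ![1, a j, a j ^ 2] (by
      rw [← h0, Fin.sum_univ_three, hE']
      rfl) 0
    simp at this
  have hFl : ∀ p : Polynomial k, F * ps F x p = ps F x p := by
    intro p
    rw [ps, ← mul_assoc, hF]
  have hFr : ∀ p : Polynomial k, ps F x p * F = ps F x p := by
    intro p
    have h := ps_mul (k := k) hF h1 h2 p 1
    rw [ps_one, mul_one] at h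
    exact h.symm
  have hEF : ∀ j, ps F x (E j) ∈ cor k F F := fun j => mem_cor.2 ⟨hFl _, hFr _⟩
  have hmul : ∀ b ∈ cor k F F, ∀ j, ∃ t : k, b * ps F x (E j) = t • ps F x (E j) := by
    intro b hb j
    obtain ⟨p, rfl⟩ := hsp b hb
    have hr : (p - Polynomial.C (p.eval (a j ^ 2 * c))).IsRoot (a j ^ 2 * c) := by
      simp [Polynomial.IsRoot]
    obtain ⟨q, hq⟩ := Polynomial.dvd_iff_isRoot.2 hr
    refine ⟨p.eval (a j ^ 2 * c), ?_⟩
    rw [← ps_mul hF h1 h2, ← ps_smul, ← sub_eq_zero, ← ps_sub, ← hker (Polynomial.C (a j) ^ 2 * q)]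
    congr 1
    rw [Polynomial.smul_eq_C_mul]
    simp only [hE]
    rw [Polynomial.C_mul (a := a j ^ 2), Polynomial.C_pow] at hq
    linear_combination (1 + Polynomial.C (a j) * Polynomial.X +
      Polynomial.C (a j) ^ 2 * Polynomial.X ^ 2) * hq - (Polynomial.X + Polynomial.C (a j) *
      Polynomial.X ^ 2) * q * hCc j
  have hcorF : ∀ i j, ∀ b ∈ cor k (ps F x (E i)) (ps F x (E j)), b ∈ cor k F F := by
    rintro i j b ⟨hb1, hb2⟩
    refine mem_cor.2 ⟨?_, ?_⟩
    · rw [← hb1, ← mul_assoc, hFl]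
    · rw [← hb2, mul_assoc, hFr]
  have hcor : ∀ i j, ∀ b ∈ cor k (ps F x (E i)) (ps F x (E j)), ∃ t : k, b = t • ps F x (E j) := by
    intro i j b hb
    obtain ⟨t, ht⟩ := hmul b (hcorF i j b hb) j
    exact ⟨t, by rw [← ht]; exact hb.2.symm⟩
  refine ⟨fun j => ps F x (E j), fun j => ⟨hE0 j, hEE j, fun b hb => ?_⟩, fun i j => ?_, hEF, ?_⟩
  · obtain ⟨t, rfl⟩ := hcor j j b hb
    exact ⟨t, by rw [sub_self]; exact IsNilpotent.zero⟩
  · split_ifs with hij
    · subst hij
      have : cor k (ps F x (E i)) (ps F x (E i)) = Submodule.span k {ps F x (E i)} := by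
        apply le_antisymm
        · intro b hb
          obtain ⟨t, rfl⟩ := hcor i i b hb
          exact Submodule.smul_mem _ _ (Submodule.mem_span_singleton_self _)
        · rw [Submodule.span_singleton_le_iff_mem]
          exact mem_cor.2 ⟨hEE i, hEE i⟩
      rw [this, finrank_span_singleton (hE0 i)]
    · have : cor k (ps F x (E i)) (ps F x (E j)) = ⊥ := by
        rw [eq_bot_iff]
        intro b hb
        obtain ⟨t, rfl⟩ := hcor i j b hb
        rw [Submodule.mem_bot, ← hb.1, mul_smul_comm, hEne i j hij, smul_zero]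
      rw [this, finrank_bot]
  · simp only [hE', Fin.sum_univ_three]
    have e1 : a 0 + a 1 + a 2 = 0 := by
      simp only [ha]
      simp
      linear_combination g⁻¹ * hw
    have e2 : a 0 ^ 2 + a 1 ^ 2 + a 2 ^ 2 = 0 := by
      simp only [ha]
      simp
      linear_combination g⁻¹ ^ 2 * hw + g⁻¹ ^ 2 * w * hw3
    calc _ = (1 + 1 + 1 : k) • (F * x ^ 0) + (a 0 + a 1 + a 2) • (F * x ^ 1) +
        (a 0 ^ 2 + a 1 ^ 2 + a 2 ^ 2) • (F * x ^ 2) := by module
      _ = F := by
        rw [e1, e2, zero_smul, zero_smul, add_zero, add_zero, pow_zero, mul_one,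
          show (1 + 1 + 1 : k) = 1 by linear_combination h20, one_smul]

end abs
section clif
variable {k : Type u} [Field k] {N K : Type} [Group N] [Group K]
  {φ : K →* MulAut N}

/-- action of `K` on `k N` -/
noncomputable def ac (φ : K →* MulAut N) (g : K) : MonoidAlgebra k N →ₐ[k] MonoidAlgebra k N :=
  MonoidAlgebra.mapDomainAlgHom k k ((φ g : N ≃* N) : N →* N)

lemma ac_apply (g : K) (x : MonoidAlgebra k N) : ac φ g x = MonoidAlgebra.mapDomain (φ g) x := rfl

lemma ac_single (g : K) (n : N) (r : k) :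
    ac φ g (MonoidAlgebra.single n r) = MonoidAlgebra.single (φ g n) r := by
  rw [ac_apply, MonoidAlgebra.mapDomain_single]

lemma ac_ac_inv (g : K) (x : MonoidAlgebra k N) : ac φ g (ac φ g⁻¹ x) = x := by
  induction x using MonoidAlgebra.induction_linear with
  | zero => simp
  | add x y hx hy => rw [map_add, map_add, hx, hy]
  | single n r => rw [ac_single, ac_single]; simp

/-- `k N → k (N ⋊ K)` as an algebra map -/
noncomputable def iN (φ : K →* MulAut N) : MonoidAlgebra k N →ₐ[k] MonoidAlgebra k (N ⋊[φ] K) :=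
  MonoidAlgebra.mapDomainAlgHom k k SemidirectProduct.inl

lemma iN_apply (x : MonoidAlgebra k N) : iN φ x = inN φ x := rfl

lemma iN_single (n : N) (r : k) :
    iN φ (MonoidAlgebra.single n r) = MonoidAlgebra.single ⟨n, 1⟩ r := by
  rw [iN_apply, inN, MonoidAlgebra.mapDomain_single]; rfl

/-- group elements of `K` -/
noncomputable def s (k : Type u) [Field k] (φ : K →* MulAut N) (g : K) : MonoidAlgebra k (N ⋊[φ] K) :=
  MonoidAlgebra.single ⟨1, g⟩ 1

lemma s_mul (g h : K) : s k φ g * s k φ h = s k φ (g * h) := by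
  rw [s, s, s, MonoidAlgebra.single_mul_single, mul_one]
  congr 1
  ext <;> simp

lemma s_one : s k φ (1 : K) = 1 := rfl

lemma s_iN (g : K) (x : MonoidAlgebra k N) : s k φ g * iN φ x = iN φ (ac φ g x) * s k φ g := by
  induction x using MonoidAlgebra.induction_linear with
  | zero => simp
  | add x y hx hy => rw [map_add, map_add, map_add, mul_add, add_mul, hx, hy]
  | single n r =>
    rw [ac_single, iN_single, iN_single, s, MonoidAlgebra.single_mul_single,
      MonoidAlgebra.single_mul_single, mul_one, one_mul]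
    congr 1
    ext <;> simp

/-- the component at `g` -/
noncomputable def cp (φ : K →* MulAut N) (g : K) : MonoidAlgebra k (N ⋊[φ] K) →ₗ[k] MonoidAlgebra k N where
  toFun b := MonoidAlgebra.comapDomain (fun n => (⟨n, g⟩ : N ⋊[φ] K)) (fun a b h => by
    simpa using congrArg SemidirectProduct.left h) b
  map_add' x y := by simp
  map_smul' c x := by ext; simp

lemma mkmul (n m : N) (g h : K) : (⟨n, g⟩ : N ⋊[φ] K) * ⟨m, h⟩ = ⟨n * φ g m, g * h⟩ := rfl

open Classical in
lemma cp_single (g h : K) (n : N) (r : k) : cp φ g (MonoidAlgebra.single (⟨n, h⟩ : N ⋊[φ] K) r) =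
    if h = g then MonoidAlgebra.single n r else 0 := by
  ext m
  simp only [cp, LinearMap.coe_mk, AddHom.coe_mk]
  split_ifs with hg
  · subst hg
    simp [Finsupp.single_apply]
  · simp [SemidirectProduct.ext_iff, hg]

open Classical in
lemma cp_left (g : K) (x : MonoidAlgebra k N) (b : MonoidAlgebra k (N ⋊[φ] K)) :
    cp φ g (iN φ x * b) = x * cp φ g b := by
  induction x using MonoidAlgebra.induction_linear with
  | zero => simp
  | add x y hx hy => rw [map_add, add_mul, map_add, hx, hy, add_mul]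
  | single n r =>
    induction b using MonoidAlgebra.induction_linear with
    | zero => simp
    | add x y hx hy => rw [map_add, mul_add, map_add, hx, hy, mul_add]
    | single m t =>
      obtain ⟨m, h⟩ := m
      rw [iN_single, MonoidAlgebra.single_mul_single, mkmul, cp_single, cp_single]
      split_ifs <;> simp_all [MonoidAlgebra.single_mul_single]

open Classical in
lemma cp_right (g : K) (y : MonoidAlgebra k N) (b : MonoidAlgebra k (N ⋊[φ] K)) :
    cp φ g (b * iN φ y) = cp φ g b * ac φ g y := by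
  induction y using MonoidAlgebra.induction_linear with
  | zero => simp
  | add x y hx hy => rw [map_add, mul_add, map_add, hx, hy, map_add, mul_add]
  | single n r =>
    induction b using MonoidAlgebra.induction_linear with
    | zero => simp
    | add x y hx hy => rw [map_add, add_mul, map_add, hx, hy, add_mul]
    | single m t =>
      obtain ⟨m, h⟩ := m
      rw [iN_single, MonoidAlgebra.single_mul_single, mkmul, cp_single, cp_single, ac_single]
      split_ifs <;> simp_all [MonoidAlgebra.single_mul_single]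

open Classical in
lemma cp_iN_s (g h : K) (x : MonoidAlgebra k N) :
    cp φ g (iN φ x * s k φ h) = if h = g then x else 0 := by
  rw [cp_left, s, cp_single]
  split_ifs
  · exact mul_one x
  · exact mul_zero x

open Classical in
lemma sum_cp [Fintype K] (b : MonoidAlgebra k (N ⋊[φ] K)) :
    ∑ g, iN φ (cp φ g b) * s k φ g = b := by
  induction b using MonoidAlgebra.induction_linear with
  | zero => simp
  | add x y hx hy =>
    simp only [map_add, add_mul, Finset.sum_add_distrib]
    rw [hx, hy]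
  | single m t =>
    obtain ⟨m, h⟩ := m
    rw [Finset.sum_eq_single h]
    · rw [cp_single, if_pos rfl, iN_single, s, MonoidAlgebra.single_mul_single, mul_one]
      congr 1
      ext <;> simp
    · intro g _ hg
      rw [cp_single, if_neg (Ne.symm hg), map_zero, zero_mul]
    · simp


variable [Finite N] [Finite K] {L : Type} [Fintype L] [DecidableEq L] {a : K →* Equiv.Perm L}
  {z f : L → MonoidAlgebra k N}

omit [Finite N] [Finite K] in
lemma exists_xy (h : Blocks φ a z f) (l : L) (u : K) (hu : a u l = l) :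
    ∃ x y : MonoidAlgebra k N, f l * x = x ∧ x * ac φ u (f l) = x ∧ ac φ u (f l) * y = y ∧
      y * f l = y ∧ x * y = f l ∧ y * x = ac φ u (f l) := by
  set f' := ac φ u (f l) with hf'
  have hff : f' * f' = f' := by rw [hf', ← map_mul, h.hf]
  have hf0 : f' ≠ 0 := by
    intro h0
    apply h.hf0 l
    have := ac_ac_inv (φ := φ) u⁻¹ (f l)
    rw [inv_inv] at this
    rw [← this, ← hf', h0, map_zero]
  have hz : z l * f' = f' := by
    have := congrArg (ac φ u) (h.hzf l)
    rwa [map_mul, ac_apply u (z l), h.hφ, hu] at this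
  have hsc : ∀ x, ∃ c : k, f' * x * f' = c • f' := by
    intro x
    obtain ⟨c, hc⟩ := h.hf1 l (ac φ u⁻¹ x)
    refine ⟨c, ?_⟩
    have := congrArg (ac φ u) hc
    rwa [map_mul, map_mul, ac_ac_inv, map_smul] at this
  obtain ⟨n, xs, ys, hzz⟩ := h.hgen l
  have h1 : ∑ i, f' * xs i * f l * (ys i * f') = f' := by
    calc _ = f' * (∑ i, xs i * f l * ys i) * f' := by
          rw [Finset.mul_sum, Finset.sum_mul]
          refine Finset.sum_congr rfl fun i _ => ?_
          simp only [mul_assoc]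
      _ = f' := by rw [← hzz, mul_assoc, hz, hff]
  obtain ⟨i, hi⟩ : ∃ i, f' * xs i * f l * (ys i * f') ≠ 0 := by
    by_contra hcon
    push Not at hcon
    exact hf0 (by rw [← h1]; exact Finset.sum_eq_zero fun i _ => hcon i)
  set y0 := f' * xs i * f l with hy0
  set x0 := f l * (ys i * f') with hx0
  have hyx0 : y0 * x0 ≠ 0 := by
    rw [hx0, ← mul_assoc, hy0, mul_assoc _ (f l) (f l), h.hf, ← hy0]
    exact hi
  have ex1 : f l * x0 = x0 := by rw [hx0, ← mul_assoc, h.hf]
  have ex2 : x0 * f' = x0 := by rw [hx0, mul_assoc, mul_assoc, hff]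
  have ey1 : f' * y0 = y0 := by rw [hy0, ← mul_assoc, ← mul_assoc, hff]
  have ey2 : y0 * f l = y0 := by rw [hy0, mul_assoc, h.hf]
  obtain ⟨c, hc⟩ := hsc (y0 * x0)
  rw [← mul_assoc, ey1, mul_assoc, ex2] at hc
  obtain ⟨c', hc'⟩ := h.hf1 l (x0 * y0)
  rw [← mul_assoc, ex1, mul_assoc, ey2] at hc'
  have hcc : c = c' := by
    have e : c • x0 = c' • x0 := by
      calc c • x0 = x0 * (y0 * x0) := by rw [hc, mul_smul_comm, ex2]
        _ = (x0 * y0) * x0 := (mul_assoc x0 y0 x0).symm
        _ = c' • x0 := by rw [hc', smul_mul_assoc, ex1]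
    have hx00 : x0 ≠ 0 := by
      intro h0
      exact hyx0 (by rw [h0, mul_zero])
    exact smul_left_injective k hx00 e
  subst hcc
  have hc0 : c ≠ 0 := by
    rintro rfl
    exact hyx0 (by rw [hc, zero_smul])
  refine ⟨x0, c⁻¹ • y0, ex1, ex2, ?_, ?_, ?_, ?_⟩
  · rw [mul_smul_comm, ey1]
  · rw [smul_mul_assoc, ey2]
  · rw [mul_smul_comm, hc', smul_smul, inv_mul_cancel₀ hc0, one_smul]
  · rw [smul_mul_assoc, hc, smul_smul, inv_mul_cancel₀ hc0, one_smul]

lemma main (h : Blocks φ a z f) (l : L) (u : K) (n : ℕ) (hn : orderOf u = n)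
    (hl : ∀ g, a g l = l ↔ g ∈ Subgroup.zpowers u) :
    ∃ x : MonoidAlgebra k (N ⋊[φ] K), inN φ (f l) * x = x ∧ x * inN φ (f l) = x ∧
      (∃ c : k, c ≠ 0 ∧ inN φ (f l) * x ^ n = c • inN φ (f l)) ∧
      cor k (inN φ (f l)) (inN φ (f l)) =
        Submodule.span k (Set.range fun i : Fin n => inN φ (f l) * x ^ (i : ℕ)) ∧
      LinearIndependent k (fun i : Fin n => inN φ (f l) * x ^ (i : ℕ)) := by
  classical
  cases nonempty_fintype K
  obtain ⟨x, y, x1, x2, y1, y2, xy, yx⟩ := exists_xy h l u ((hl u).2 (Subgroup.mem_zpowers u))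
  rw [← iN_apply]
  set F := iN φ (f l) with hF
  set X := iN φ x * s k φ u with hX
  set Y := s k φ u⁻¹ * iN φ y with hY
  have hsinv : ∀ (g : K) (w : MonoidAlgebra k N), iN φ w * s k φ g⁻¹ = s k φ g⁻¹ * iN φ (ac φ g w) := by
    intro g w
    rw [s_iN]
    have := ac_ac_inv (φ := φ) g⁻¹ w
    rw [inv_inv] at this
    rw [this]
  have FF : F * F = F := by rw [hF, ← map_mul, h.hf]
  have F0 : F ≠ 0 := by
    intro h0
    apply h.hf0 l
    have := cp_iN_s (φ := φ) 1 1 (f l)
    rw [if_pos rfl, s_one, mul_one, ← hF, h0, map_zero] at this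
    exact this.symm
  have FX : F * X = X := by rw [hF, hX, ← mul_assoc, ← map_mul, x1]
  have XF : X * F = X := by rw [hF, hX, mul_assoc, s_iN, ← mul_assoc, ← map_mul, x2]
  have FY : F * Y = Y := by
    rw [hF, hY, ← mul_assoc, hsinv, mul_assoc, ← map_mul, y1]
  have YF : Y * F = Y := by rw [hF, hY, mul_assoc, ← map_mul, y2]
  have XY : X * Y = F := by
    rw [hX, hY, mul_assoc, ← mul_assoc (s k φ u), s_mul, mul_inv_cancel, s_one, one_mul, ← map_mul, xy]
  have YX : Y * X = F := by
    rw [hX, hY, mul_assoc, ← mul_assoc (iN φ y), ← map_mul, yx, ← mul_assoc, ← hsinv, mul_assoc,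
      s_mul, inv_mul_cancel, s_one, mul_one]
  have hXi : ∀ i : ℕ, ∃ w, F * X ^ i = iN φ w * s k φ (u ^ i) := by
    intro i
    induction i with
    | zero => exact ⟨f l, by rw [pow_zero, pow_zero, s_one]⟩
    | succ i ih =>
      obtain ⟨w, hw⟩ := ih
      refine ⟨w * ac φ (u ^ i) x, ?_⟩
      rw [pow_succ, ← mul_assoc, hw, hX, mul_assoc, ← mul_assoc (s k φ (u ^ i)), s_iN, mul_assoc,
        s_mul, ← mul_assoc, ← map_mul, pow_succ]
  have hYi : ∀ i : ℕ, ∃ w, Y ^ i * F = s k φ (u ^ i)⁻¹ * iN φ w := by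
    intro i
    induction i with
    | zero => exact ⟨f l, by rw [pow_zero, pow_zero, inv_one, s_one]⟩
    | succ i ih =>
      obtain ⟨w, hw⟩ := ih
      refine ⟨ac φ (u ^ i) y * w, ?_⟩
      rw [pow_succ', mul_assoc, hw, hY, mul_assoc, ← mul_assoc (iN φ y), hsinv, mul_assoc,
        ← map_mul, ← mul_assoc, s_mul, pow_succ, mul_inv_rev]
  have hYX : ∀ i : ℕ, Y ^ i * F * (F * X ^ i) = F := by
    intro i
    induction i with
    | zero => simp [FF]
    | succ i ih =>
      calc Y ^ (i + 1) * F * (F * X ^ (i + 1)) = Y ^ i * ((Y * F) * (F * X)) * X ^ i := by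
            rw [pow_succ, pow_succ']; simp only [mul_assoc]
        _ = Y ^ i * F * X ^ i := by rw [YF, FX, YX]
        _ = Y ^ i * F * (F * X ^ i) := by
            rw [mul_assoc (Y ^ i) F (F * X ^ i), ← mul_assoc F F, FF, mul_assoc]
        _ = F := ih
  have hcomm : ∀ i : ℕ, F * X ^ i * F = F * X ^ i := by
    intro i
    induction i with
    | zero => simp [FF]
    | succ i ih => rw [pow_succ, mul_assoc, mul_assoc, XF]
  -- the corner of scalar elements
  have hsc : ∀ w, ∃ c : k, F * iN φ w * F = c • F := by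
    intro w
    obtain ⟨c, hc⟩ := h.hf1 l w
    exact ⟨c, by rw [hF, ← map_mul, ← map_mul, hc, map_smul]⟩
  have hcomp : ∀ b ∈ cor k F F, ∀ g, iN φ (cp φ g b) * s k φ g ∈
      Submodule.span k (Set.range fun i : Fin n => F * X ^ (i : ℕ)) := by
    rintro b ⟨hb1, hb2⟩ g
    have e1 : f l * cp φ g b = cp φ g b := by rw [← cp_left, ← hF, hb1]
    have e2 : cp φ g b * ac φ g (f l) = cp φ g b := by rw [← cp_right, ← hF, hb2]
    set w := cp φ g b with hw
    by_cases hg : a g l = l
    · -- `g = u ^ i`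
      have hg' := (hl g).1 hg
      rw [mem_zpowers_iff_mem_range_orderOf, Finset.mem_image] at hg'
      obtain ⟨i, hi, rfl⟩ := hg'
      rw [Finset.mem_range, hn] at hi
      obtain ⟨v, hv⟩ := hYi i
      obtain ⟨c, hc⟩ := hsc (w * v)
      have f1 : F * (iN φ w * s k φ (u ^ i)) = iN φ w * s k φ (u ^ i) := by
        rw [hF, ← mul_assoc, ← map_mul, e1]
      have f2 : (iN φ w * s k φ (u ^ i)) * F = iN φ w * s k φ (u ^ i) := by
        rw [hF, mul_assoc, s_iN, ← mul_assoc, ← map_mul, e2]
      have f3 : (iN φ w * s k φ (u ^ i)) * (Y ^ i * F) = iN φ (w * v) := by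
        rw [hv, mul_assoc, ← mul_assoc (s k φ (u ^ i)), s_mul, mul_inv_cancel, s_one, one_mul,
          ← map_mul]
      have f4 : iN φ w * s k φ (u ^ i) = c • (F * X ^ i) := by
        calc iN φ w * s k φ (u ^ i) = (F * (iN φ w * s k φ (u ^ i))) * (Y ^ i * F * (F * X ^ i)) := by
              rw [hYX, f1, f2]
          _ = F * ((iN φ w * s k φ (u ^ i)) * (Y ^ i * F)) * (F * X ^ i) := by
              simp only [mul_assoc]
          _ = (F * iN φ (w * v) * F) * X ^ i := by rw [f3]; simp only [mul_assoc]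
          _ = c • (F * X ^ i) := by rw [hc, smul_mul_assoc]
      rw [f4]
      exact Submodule.smul_mem _ _ (Submodule.subset_span ⟨⟨i, hi⟩, rfl⟩)
    · have w0 : w = 0 := by
        have g1 : z l * w = w := by rw [← e1, ← mul_assoc, h.hzf]
        have g2 : z (a g l) * ac φ g (f l) = ac φ g (f l) := by
          have := congrArg (ac φ g) (h.hzf l)
          rwa [map_mul, ac_apply g (z l), h.hφ] at this
        have g3 : w * z (a g l) = w := by
          rw [← e2, mul_assoc, ← h.hzc, g2]
        rw [← g3, ← g1, mul_assoc, ← h.hzc (a g l), ← mul_assoc, h.hz, if_neg (Ne.symm hg), zero_mul]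
      rw [w0, map_zero, zero_mul]
      exact Submodule.zero_mem _
  refine ⟨X, FX, XF, ?_, ?_, ?_⟩
  · obtain ⟨w, hw⟩ := hXi n
    rw [← hn, pow_orderOf_eq_one, s_one, mul_one, hn] at hw
    obtain ⟨c, hc⟩ := hsc w
    rw [← hw, ← mul_assoc, FF, hcomm] at hc
    refine ⟨c, ?_, hc⟩
    rintro rfl
    rw [zero_smul] at hc
    exact F0 (by rw [← hYX n, hc, mul_zero])
  · apply le_antisymm
    · intro b hb
      rw [← sum_cp b]
      exact Submodule.sum_mem _ fun g _ => hcomp b hb g
    · rw [Submodule.span_le]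
      rintro _ ⟨i, rfl⟩
      exact mem_cor.2 ⟨by simp only [← mul_assoc, FF], hcomm _⟩
  · rw [Fintype.linearIndependent_iff]
    intro c hc j
    choose w hw using hXi
    have hwj : w j ≠ 0 := by
      intro h0
      have := hYX j
      rw [hw j, h0, map_zero, zero_mul, mul_zero] at this
      exact F0 this.symm
    have := congrArg (cp φ (u ^ (j : ℕ))) hc
    rw [map_sum, map_zero, Finset.sum_eq_single j] at this
    · rw [map_smul, hw, cp_iN_s, if_pos rfl] at this
      exact (smul_eq_zero.1 this).resolve_right hwj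
    · intro i _ hij
      rw [map_smul, hw, cp_iN_s, if_neg, smul_zero]
      intro hh
      apply hij
      have := pow_injOn_Iio_orderOf (x := u) (by simp [hn]) (by simp [hn]) hh
      exact Fin.ext this
    · simp

end clif
end CLIF2

section
variable {k : Type u} [Field k] {N K : Type} [Group N] [Group K] [Finite N] [Finite K]
  {φ : K →* MulAut N} {L : Type} [Fintype L] [DecidableEq L] {a : K →* Equiv.Perm L}
  {z f : L → MonoidAlgebra k N}

theorem CLIF_four [IsAlgClosed k] [CharP k 2] (h : Blocks φ a z f) (l : L) (u : K)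
    (hu : orderOf u = 4) (hl : ∀ g, a g l = l ↔ g ∈ Subgroup.zpowers u) :
    IsLoc k (inN φ (f l)) ∧ Module.finrank k (cor k (inN φ (f l)) (inN φ (f l))) = 4 := by
  obtain ⟨x, h1, h2, ⟨c, hc, hx⟩, hsp, hli⟩ := CLIF2.main h l u 4 hu hl
  have hF : inN φ (f l) * inN φ (f l) = inN φ (f l) := by
    rw [← CLIF2.iN_apply, ← map_mul, h.hf]
  have hF0 : inN φ (f l) ≠ 0 := by
    have := hli.ne_zero 0
    simpa using this
  refine ⟨CLIF2.abs4 hF hF0 h1 h2 c hx fun b hb => CLIF2.span_poly (n := 4) b (hsp ▸ hb), ?_⟩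
  rw [hsp, finrank_span_eq_card hli, Fintype.card_fin]

theorem CLIF_three [IsAlgClosed k] [CharP k 2] (h : Blocks φ a z f) (l : L) (u : K)
    (hu : orderOf u = 3) (hl : ∀ g, a g l = l ↔ g ∈ Subgroup.zpowers u) :
    ∃ e : Fin 3 → MonoidAlgebra k (N ⋊[φ] K), (∀ i, IsLoc k (e i)) ∧
      (∀ i j, Module.finrank k (cor k (e i) (e j)) = if i = j then 1 else 0) ∧
      (∀ i, e i ∈ cor k (inN φ (f l)) (inN φ (f l))) ∧ ∑ i, e i = inN φ (f l) := by
  obtain ⟨x, h1, h2, ⟨c, hc, hx⟩, hsp, hli⟩ := CLIF2.main h l u 3 hu hl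
  have hF : inN φ (f l) * inN φ (f l) = inN φ (f l) := by
    rw [← CLIF2.iN_apply, ← map_mul, h.hf]
  exact CLIF2.abs3 hF h1 h2 c hc hx (fun b hb => CLIF2.span_poly (n := 3) b (hsp ▸ hb)) hli

end

end CM
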